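import Pool.Agent.X193.C3S.Main

/-!
# An explicit finite equational basis of the variety generated by `C₃ˢ`

The variety generated by the three element involutive unital band `C₃ˢ` is axiomatised by an
explicit list of eleven identities in at most three variables.

Idea of the proof.  In an algebra satisfying the identities the elements with a given value
`⊥_x = x · ¬x` form a Boolean algebra, and multiplication by `⊤_y` maps the fibre of `x` to the
fibre of `x y` preserving joins with complements.  A prime ideal of one fibre therefore gives a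
homomorphism to `C₃ˢ` from the subalgebra of all elements above this fibre, and these homomorphisms
separate the elements of the fibre.
-/

set_option autoImplicit false

namespace Pool.Agent.Results.MP_7f507d_al.FiniteBasis

open Pool.Agent.X193.C3S

universe u

/-- An algebra satisfying the basis satisfies all identities of `C₃ˢ`. -/
theorem holds_of_basis {A : Type u} (M : Alg A) (hM : ∀ e ∈ basis, Holds M e.1 e.2)
    {s t : Tm} (h : Holds c3 s t) : Holds M s t := by
  have e1 := hM ((x0.mul x1).mul x2, x0.mul (x1.mul x2)) (by simp [basis])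
  have e2 := hM (x0.mul x1, x1.mul x0) (by simp [basis])
  have e3 := hM (x0.mul x0, x0) (by simp [basis])
  have e4 := hM (Tm.one.mul x0, x0) (by simp [basis])
  have e5 := hM (x0.neg.neg, x0) (by simp [basis])
  have e6 := hM (Tm.one.neg, Tm.one) (by simp [basis])
  have e7 := hM ((x0.mul x1).bt, x0.bt.mul x1.bt) (by simp [basis])
  have e8 := hM (x0.tp.mul x0, x0) (by simp [basis])
  have e9 := hM ((x0.mul x1).tp, (x0.mul x1.tp).jn (x0.neg.mul x1.tp)) (by simp [basis])
  have e10 := hM ((x0.mul x1.tp).mul ((x0.mul x1.tp).jn (x1.mul x0.tp)), x0.mul x1.tp)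
    (by simp [basis])
  have e11 := hM (x0.mul ((x1.mul x2.tp).jn (x2.mul x1.tp)),
      (x0.mul (x1.mul x2.tp)).jn (x0.mul (x2.mul x1.tp))) (by simp [basis])
  let v : A → A → A → ℕ → A := fun x y z n => match n with
    | 0 => x
    | 1 => y
    | _ => z
  letI : CA A :=
    { mul := M.mul
      one := M.one
      ng := M.neg
      mul_assoc := fun x y z => e1 (v x y z)
      mul_comm := fun x y => e2 (v x y x)
      one_mul := fun x => e4 (v x x x)
      mul_one := fun x => (e2 (v x M.one x)).trans (e4 (v x x x))
      idem := fun x => e3 (v x x x)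
      nn := fun x => e5 (v x x x)
      n1 := e6 (v M.one M.one M.one)
      bt_mul := fun x y => e7 (v x y x)
      tp_mul := fun x => e8 (v x x x)
      tp_tp := fun x y => e9 (v x y x)
      absorb := fun x y => e10 (v x y x)
      distr := fun x y z => e11 (v x y z) }
  exact holds_of_c3 (A := A) h

/-- The identities of the basis hold in `C₃ˢ`. -/
theorem basis_holds : ∀ e ∈ basis, Holds c3 e.1 e.2 := by
  intro e he v
  have key : ∀ a b c : Three,
      c3.mul (c3.mul a b) c = c3.mul a (c3.mul b c) ∧ c3.mul a b = c3.mul b a ∧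
      c3.mul a a = a ∧ c3.mul c3.one a = a ∧ c3.neg (c3.neg a) = a ∧ c3.neg c3.one = c3.one ∧
      c3.mul (c3.mul a b) (c3.neg (c3.mul a b)) =
        c3.mul (c3.mul a (c3.neg a)) (c3.mul b (c3.neg b)) ∧
      c3.mul (c3.neg (c3.mul (c3.neg a) a)) a = a := by decide
  have key2 : ∀ a b : Three, (∀ T : Three → Three,
      T = (fun a => c3.neg (c3.mul (c3.neg a) a)) → ∀ J : Three → Three → Three,
      J = (fun a b => c3.neg (c3.mul (c3.neg a) (c3.neg b))) →
      T (c3.mul a b) = J (c3.mul a (T b)) (c3.mul (c3.neg a) (T b)) ∧
      c3.mul (c3.mul a (T b)) (J (c3.mul a (T b)) (c3.mul b (T a))) = c3.mul a (T b)) := by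
    intro a b T hT J hJ
    subst hT hJ
    revert a b
    decide
  have key3 : ∀ a b c : Three, (∀ T : Three → Three,
      T = (fun a => c3.neg (c3.mul (c3.neg a) a)) → ∀ J : Three → Three → Three,
      J = (fun a b => c3.neg (c3.mul (c3.neg a) (c3.neg b))) →
      c3.mul a (J (c3.mul b (T c)) (c3.mul c (T b))) =
        J (c3.mul a (c3.mul b (T c))) (c3.mul a (c3.mul c (T b)))) := by
    intro a b c T hT J hJ
    subst hT hJ
    revert a b c
    decide
  have k := key (v 0) (v 1) (v 2)
  have k2 := key2 (v 0) (v 1) _ rfl _ rfl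
  have k3 := key3 (v 0) (v 1) (v 2) _ rfl _ rfl
  simp only [basis, List.mem_cons, List.not_mem_nil, or_false] at he
  rcases he with rfl | rfl | rfl | rfl | rfl | rfl | rfl | rfl | rfl | rfl | rfl
  · exact k.1
  · exact k.2.1
  · exact k.2.2.1
  · exact k.2.2.2.1
  · exact k.2.2.2.2.1
  · exact k.2.2.2.2.2.1
  · exact k.2.2.2.2.2.2.1
  · exact k.2.2.2.2.2.2.2
  · exact k2.1
  · exact k2.2
  · exact k3

theorem eval_subst {A : Type u} (M : Alg A) (v : ℕ → A) (σ : ℕ → Tm) (t : Tm) :
    (t.subst σ).eval M v = t.eval M (fun n => (σ n).eval M v) := by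
  induction t with
  | var n => rfl
  | one => rfl
  | mul s t ihs iht =>
    show M.mul _ _ = M.mul _ _
    rw [ihs, iht]
  | neg s ihs =>
    show M.neg _ = M.neg _
    rw [ihs]

/-- Soundness of equational logic. -/
theorem holds_of_derives {A : Type u} (M : Alg A) (E : Set (Tm × Tm))
    (hM : ∀ e ∈ E, Holds M e.1 e.2) {s t : Tm} (h : Derives E s t) : Holds M s t := by
  induction h with
  | ax s t σ hst =>
    intro v
    rw [eval_subst, eval_subst]
    exact hM _ hst _
  | refl s => exact fun v => rfl
  | symm _ ih => exact fun v => (ih v).symm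
  | trans _ _ ih1 ih2 => exact fun v => (ih1 v).trans (ih2 v)
  | mul _ _ ih1 ih2 =>
    intro v
    show M.mul _ _ = M.mul _ _
    rw [ih1 v, ih2 v]
  | neg _ ih =>
    intro v
    show M.neg _ = M.neg _
    rw [ih v]

/-- The relation of derivability as a setoid. -/
def std (E : Set (Tm × Tm)) : Setoid Tm where
  r := Derives E
  iseqv := ⟨Derives.refl, Derives.symm, Derives.trans⟩

/-- The free algebra of the variety defined by `E`. -/
def free (E : Set (Tm × Tm)) : Alg (Quotient (std E)) where
  mul := Quotient.map₂ Tm.mul (fun _ _ h _ _ h' => Derives.mul h h')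
  neg := Quotient.map Tm.neg (fun _ _ h => Derives.neg h)
  one := Quotient.mk _ Tm.one

theorem eval_free (E : Set (Tm × Tm)) (σ : ℕ → Tm) (t : Tm) :
    t.eval (free E) (fun n => Quotient.mk (std E) (σ n)) = Quotient.mk (std E) (t.subst σ) := by
  induction t with
  | var n => rfl
  | one => rfl
  | mul s t ihs iht =>
    show (free E).mul _ _ = _
    rw [ihs, iht]
    rfl
  | neg s ihs =>
    show (free E).neg _ = _
    rw [ihs]
    rfl

theorem free_holds (E : Set (Tm × Tm)) : ∀ e ∈ E, Holds (free E) e.1 e.2 := by
  intro e he v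
  have hv : v = fun n => Quotient.mk (std E) ((v n).out) := by
    funext n
    exact (Quotient.out_eq (v n)).symm
  rw [hv, eval_free, eval_free]
  exact Quotient.sound (Derives.ax e.1 e.2 _ he)

theorem subst_var (t : Tm) : t.subst Tm.var = t := by
  induction t with
  | var n => rfl
  | one => rfl
  | mul s t ihs iht => simp only [Tm.subst, ihs, iht]
  | neg s ihs => simp only [Tm.subst, ihs]

/-- The eleven identities in `basis` are an equational basis of the variety generated by `C₃ˢ`:
their consequences in equational logic are exactly the identities valid in `C₃ˢ`, and their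
models are exactly the algebras satisfying every identity valid in `C₃ˢ`. -/
theorem result :
    (∀ s t : Tm, Derives {e | e ∈ basis} s t ↔ Holds c3 s t) ∧
    (∀ (A : Type u) (M : Alg A),
      (∀ e ∈ basis, Holds M e.1 e.2) ↔ ∀ s t : Tm, Holds c3 s t → Holds M s t) := by
  refine ⟨fun s t => ⟨fun h => ?_, fun h => ?_⟩, fun A M => ⟨fun h s t hst => ?_, fun h => ?_⟩⟩
  · exact holds_of_derives c3 _ basis_holds h
  · have h1 := holds_of_basis (free {e | e ∈ basis}) (free_holds _) h
    have h2 := h1 (fun n => Quotient.mk _ (Tm.var n))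
    rw [eval_free, eval_free, subst_var, subst_var] at h2
    exact Quotient.exact h2
  · exact holds_of_basis M h hst
  · exact fun e he => h _ _ (basis_holds e he)

end Pool.Agent.Results.MP_7f507d_al.FiniteBasis
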